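import Mathlib

set_option autoImplicit false

/-!
# Unimodality of the q-deformed Pythagorean polynomials

Positive answer to Q1 of `MP_2c5354_co`.

Outline.  Let `M(w)` be the product of a word `w` in the letters `R = R_q`, `L = L_q`.

* `𝒜`, `ℬ`, `𝒞` are lower right entries of words (`form_word`, `inv_word`): with `Δ = diag(q, 1)` one has
  `M(w)ᵀ Δ = Δ M(w†)`, where `w†` is the reversed word with `R` and `L` exchanged; and
  `(𝒩_{n/m}, 𝒟_{n/m})` is the last column of `M(w')` for the word `w'` with the exponents `a₁, …, a_k` in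
  which all letters but the last one are exchanged.
* `trace M(w)` is palindromic (`trace_refl`): the matrix `S = (q-1, 1; q, 1-q)` satisfies `S R = L S`,
  `S L = R S`, and `M(w)(q⁻¹)` is up to a power of `q` conjugate to the word with exchanged letters.
* Induction on the length of the word (`PP_all`): all entries of `M(w)` and the polynomial
  `(q, 1) M(w) (1, 1)ᵀ` are interlacing (`Intl`), by the relations `trace_S0`, `trace_S1`, `trace_S2`
  between these polynomials and traces of words.
-/

open Polynomial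

namespace Pool.Agent.Results.MP_2c5354_co.Unimodality

/-! ## Definitions -/

/-- `R_q` -/
noncomputable def Rq : Matrix (Fin 2) (Fin 2) ℤ[X] := !![X, 1; 0, 1]

/-- `L_q` -/
noncomputable def Lq : Matrix (Fin 2) (Fin 2) ℤ[X] := !![X, 0; X, 1]

/-- the product `R_q ^ a₁ L_q ^ a₂ R_q ^ a₃ ⋯` for `b = true`, and `L_q ^ a₁ R_q ^ a₂ ⋯` for
`b = false` -/
noncomputable def prodRL : Bool → List ℕ → Matrix (Fin 2) (Fin 2) ℤ[X]
  | _, [] => 1
  | b, a :: l => (if b then Rq else Lq) ^ a * prodRL (!b) l

/-- the value `[a₁, a₂, …]` of the continued fraction `a₁ + 1 / (a₂ + 1 / ⋯)` (here `1 / 0 = 0`) -/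
def cfValue : List ℕ → ℚ
  | [] => 0
  | a :: l => a + 1 / cfValue l

/-- `[a₁, …, a_k]` is a regular continued fraction of `m / n` with an odd number `k` of terms, all of
them `≥ 1` -/
def IsOddCF (m n : ℕ) (l : List ℕ) : Prop :=
  (∀ a ∈ l, 1 ≤ a) ∧ l.length % 2 = 1 ∧ cfValue l = (m : ℚ) / n

/-- the polynomial `𝒩_{m/n}` for `m / n = [a₁, …, a_k]` -/
noncomputable def num (l : List ℕ) : ℤ[X] := (prodRL true l).mulVec ![0, 1] 0

/-- the polynomial `𝒟_{m/n}` -/
noncomputable def den (l : List ℕ) : ℤ[X] := (prodRL true l).mulVec ![0, 1] 1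

/-- `d = max (deg 𝒩_{m/n}) (deg 𝒟_{m/n})` -/
noncomputable def dd (l : List ℕ) : ℕ := max (num l).natDegree (den l).natDegree

/-- `𝒩_{n/m} = q ^ d 𝒟_{m/n}(q⁻¹)` -/
noncomputable def numInv (l : List ℕ) : ℤ[X] := (den l).reflect (dd l)

/-- `𝒟_{n/m} = q ^ d 𝒩_{m/n}(q⁻¹)` -/
noncomputable def denInv (l : List ℕ) : ℤ[X] := (num l).reflect (dd l)

/-- `𝒜_{m/n}` -/
noncomputable def polyA (l : List ℕ) : ℤ[X] := X * num l * numInv l + den l * denInv l

/-- `ℬ_{m/n}` -/
noncomputable def polyB (l : List ℕ) : ℤ[X] := num l * denInv l - den l * numInv l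

/-- `𝒞_{m/n}` -/
noncomputable def polyC (l : List ℕ) : ℤ[X] := X * num l ^ 2 + den l ^ 2

/-- the sequence of the coefficients of `P` up to its degree is unimodal -/
def Unimodal (P : ℤ[X]) : Prop :=
  ∃ j ≤ P.natDegree, (∀ i < j, P.coeff i ≤ P.coeff (i + 1)) ∧
    ∀ i, j ≤ i → i < P.natDegree → P.coeff (i + 1) ≤ P.coeff i

/-! ## coefficients with integer index -/

/-- the coefficient with index `i ∈ ℤ` -/
noncomputable def cz (f : ℤ[X]) (i : ℤ) : ℤ := if 0 ≤ i then f.coeff i.toNat else 0

lemma cz_zero (i : ℤ) : cz 0 i = 0 := by unfold cz; simp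

lemma cz_add (f g : ℤ[X]) (i : ℤ) : cz (f + g) i = cz f i + cz g i := by
  unfold cz; split_ifs <;> simp

lemma cz_X_mul (f : ℤ[X]) (i : ℤ) : cz (X * f) i = cz f (i - 1) := by
  unfold cz
  rcases lt_trichotomy i 0 with h | h | h
  · rw [if_neg (by omega), if_neg (by omega)]
  · subst h; simp
  · rw [if_pos h.le, if_pos (by omega)]
    obtain ⟨n, rfl⟩ : ∃ n : ℕ, i = n + 1 := ⟨(i - 1).toNat, by omega⟩
    have e1 : ((n : ℤ) + 1).toNat = n + 1 := by omega
    have e2 : ((n : ℤ) + 1 - 1).toNat = n := by omega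
    rw [e1, e2, coeff_X_mul]

lemma cz_one (i : ℤ) : cz 1 i = if i = 0 then 1 else 0 := by
  unfold cz
  rcases lt_trichotomy i 0 with h | h | h
  · rw [if_neg (by omega), if_neg (by omega)]
  · subst h; simp
  · rw [if_pos h.le, if_neg (by omega), coeff_one, if_neg (by omega)]

lemma cz_natCast (f : ℤ[X]) (n : ℕ) : cz f n = f.coeff n := by
  unfold cz; rw [if_pos (by omega)]; simp

/-! ## reflections -/

/-- `f` is the reflection of `g` -/
def Refl (n : ℤ) (f g : ℤ[X]) : Prop := ∀ i : ℤ, cz f i = cz g (n - i)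

lemma Refl.symm {n : ℤ} {f g : ℤ[X]} (h : Refl n f g) : Refl n g f := by
  intro i
  have := h (n - i)
  rw [sub_sub_cancel] at this
  exact this.symm

lemma Refl.left {n : ℤ} {f g : ℤ[X]} (h : Refl n f g) : Refl (n + 1) (X * f) g := by
  intro i
  rw [cz_X_mul, h (i - 1)]
  congr 1; ring

lemma Refl.right {n : ℤ} {f g : ℤ[X]} (h : Refl n f g) : Refl (n + 1) f (X * g) := by
  intro i
  rw [cz_X_mul, h i]
  congr 1; ring

lemma Refl.add {n : ℤ} {f g f' g' : ℤ[X]} (h : Refl n f g) (h' : Refl n f' g') :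
    Refl n (f + f') (g + g') := by
  intro i
  rw [cz_add, cz_add, h i, h' i]

lemma Refl.zero (n : ℤ) : Refl n 0 0 := by intro i; rw [cz_zero, cz_zero]

/-! ## words -/

/-- the letter `R` (`true`) or `L` (`false`) -/
noncomputable def tm (t : Bool) : Matrix (Fin 2) (Fin 2) ℤ[X] := if t then Rq else Lq

/-- the product of a word -/
noncomputable def mw : List Bool → Matrix (Fin 2) (Fin 2) ℤ[X]
  | [] => 1
  | t :: w => tm t * mw w

lemma mw_append (u w : List Bool) : mw (u ++ w) = mw u * mw w := by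
  induction u with
  | nil => simp [mw]
  | cons t u ih => rw [List.cons_append, mw, mw, ih, Matrix.mul_assoc]

/-- the swapped word -/
def sw (w : List Bool) : List Bool := w.map (fun t => !t)

lemma sw_length (w : List Bool) : (sw w).length = w.length := by simp [sw]

lemma Refl.add' {n : ℤ} {f g f' g' : ℤ[X]} (h : Refl n f g) (h' : Refl n f' g') :
    Refl n (f + f') (g' + g) := by
  rw [add_comm g' g]; exact h.add h'

lemma mw_refl (w : List Bool) : Refl w.length (mw w 0 0) (mw (sw w) 1 1) ∧
    Refl w.length (mw w 0 1) (mw (sw w) 1 0) ∧ Refl w.length (mw w 1 0) (mw (sw w) 0 1) ∧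
    Refl w.length (mw w 1 1) (mw (sw w) 0 0) := by
  induction w with
  | nil =>
    simp only [sw, List.map_nil, mw, Matrix.one_apply, List.length_nil]
    refine ⟨?_, ?_, ?_, ?_⟩ <;> intro i <;> simp [cz_one, cz_zero]
  | cons t w ih =>
    obtain ⟨h1, h2, h3, h4⟩ := ih
    have e : ((t :: w).length : ℤ) = w.length + 1 := by simp
    rw [e]
    cases t
    · simp only [sw, List.map_cons, mw, tm, Matrix.mul_apply, Fin.sum_univ_two, Rq, Lq,
        Matrix.of_apply, Matrix.cons_val', Matrix.cons_val_zero, Matrix.cons_val_one,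
        Matrix.cons_val_fin_one, Bool.not_false, if_true, Bool.false_eq_true, if_false,
        zero_mul, one_mul, add_zero, zero_add]
      exact ⟨h1.left, h2.left, h1.left.add' h3.right, h2.left.add' h4.right⟩
    · simp only [sw, List.map_cons, mw, tm, Matrix.mul_apply, Fin.sum_univ_two, Rq, Lq,
        Matrix.of_apply, Matrix.cons_val', Matrix.cons_val_zero, Matrix.cons_val_one,
        Matrix.cons_val_fin_one, Bool.not_true, if_true, Bool.false_eq_true, if_false,
        zero_mul, one_mul, add_zero, zero_add]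
      exact ⟨h1.left.add' h3.right, h2.left.add' h4.right, h3.right, h4.right⟩

/-- the matrix which exchanges `R` and `L` -/
noncomputable def SS : Matrix (Fin 2) (Fin 2) ℤ[X] := !![X - 1, 1; X, 1 - X]

lemma SS_tm (t : Bool) : SS * tm t = tm (!t) * SS := by
  cases t <;> refine Matrix.ext fun i j => ?_ <;> fin_cases i <;> fin_cases j <;>
    simp [SS, tm, Rq, Lq, Matrix.mul_apply, Fin.sum_univ_two] <;> ring

lemma SS_mw (w : List Bool) : SS * mw w = mw (sw w) * SS := by
  induction w with
  | nil => simp [mw, sw]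
  | cons t w ih =>
    have : sw (t :: w) = (!t) :: sw w := rfl
    rw [this, mw, mw, ← Matrix.mul_assoc, SS_tm, Matrix.mul_assoc, ih, Matrix.mul_assoc]

lemma SS_det : SS.det ≠ 0 := by
  have : SS.det = -(X ^ 2 - X + 1 : ℤ[X]) := by
    rw [Matrix.det_fin_two]; simp [SS]; ring
  rw [this]
  intro h
  have h2 := congrArg (fun p => Polynomial.eval 0 p) h
  simp at h2

lemma trace_sw (w : List Bool) : (mw w).trace = (mw (sw w)).trace := by
  have h := SS_mw w
  have h2 : SS.adjugate * (SS * mw w) = SS.adjugate * (mw (sw w) * SS) := by rw [h]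
  have h3 : SS.det • (mw w).trace = SS.det • (mw (sw w)).trace := by
    have e1 : (SS.adjugate * (SS * mw w)).trace = SS.det • (mw w).trace := by
      rw [← Matrix.mul_assoc, Matrix.adjugate_mul, Matrix.smul_mul, Matrix.one_mul,
        Matrix.trace_smul]
    have e2 : (SS.adjugate * (mw (sw w) * SS)).trace = SS.det • (mw (sw w)).trace := by
      rw [Matrix.trace_mul_comm, Matrix.mul_assoc, Matrix.mul_adjugate, Matrix.mul_smul,
        Matrix.mul_one, Matrix.trace_smul]
    rw [← e1, ← e2, h2]
  exact mul_left_cancel₀ SS_det h3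

/-- the trace of a word is palindromic -/
lemma trace_refl (w : List Bool) : Refl w.length (mw w).trace (mw w).trace := by
  obtain ⟨h1, -, -, h4⟩ := mw_refl w
  have h := h1.add' h4
  rw [← Matrix.trace_fin_two, ← Matrix.trace_fin_two, ← trace_sw] at h
  exact h

/-! ## interlacing sequences -/

/-- the sequence `f` is increasing towards `N / 2` and it is dominated by its left or by its right
half -/
def Intl (f : ℤ → ℤ) (N : ℤ) : Prop :=
  (∀ t, 2 * t + 2 ≤ N → f t ≤ f (t + 1) ∧ f t ≤ f (N - 1 - t) ∧ f (N - t) ≤ f (t + 1) ∧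
    f (N - t) ≤ f (N - 1 - t)) ∧
  ((∀ x, 2 * x < N → f (N - x) ≤ f x) ∨ (∀ x, 2 * x < N → f x ≤ f (N - x)))

lemma Intl.chain {f : ℤ → ℤ} {N : ℤ} (h : Intl f N) (b a : ℤ) (hba : b < a) (ha : 2 * a ≤ N) :
    f b ≤ f a ∧ f b ≤ f (N - a) ∧ f (N - b) ≤ f a ∧ f (N - b) ≤ f (N - a) := by
  have key : ∀ k : ℕ, 2 * (b + 1 + k) ≤ N → f b ≤ f (b + 1 + k) ∧ f b ≤ f (N - (b + 1 + k)) ∧
      f (N - b) ≤ f (b + 1 + k) ∧ f (N - b) ≤ f (N - (b + 1 + k)) := by
    intro k
    induction k with
    | zero =>
      intro hk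
      have h1 := h.1 b (by push_cast at hk; omega)
      have e : N - (b + 1 + ((0 : ℕ) : ℤ)) = N - 1 - b := by push_cast; ring
      have e' : b + 1 + ((0 : ℕ) : ℤ) = b + 1 := by push_cast; ring
      rw [e, e']
      exact h1
    | succ k ih =>
      intro hk
      push_cast at hk
      obtain ⟨i1, i2, i3, i4⟩ := ih (by omega)
      obtain ⟨j1, j2, j3, j4⟩ := h.1 (b + 1 + k) (by omega)
      have e : N - (b + 1 + ((k + 1 : ℕ) : ℤ)) = N - 1 - (b + 1 + k) := by push_cast; ring
      have e' : b + 1 + ((k + 1 : ℕ) : ℤ) = b + 1 + k + 1 := by push_cast; ring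
      rw [e, e']
      exact ⟨i1.trans j1, i1.trans j2, i3.trans j1, i3.trans j2⟩
  obtain ⟨k, hk⟩ : ∃ k : ℕ, a = b + 1 + k := ⟨(a - (b + 1)).toNat, by omega⟩
  subst hk
  exact key k ha

/-- positions nearer to the centre have larger values -/
lemma Intl.mono {f : ℤ → ℤ} {N : ℤ} (h : Intl f N) (x y : ℤ) (hxy : |2 * x - N| < |2 * y - N|) :
    f y ≤ f x := by
  rcases le_total (2 * x) N with hx | hx <;> rcases le_total (2 * y) N with hy | hy
  · rw [abs_of_nonpos (by omega), abs_of_nonpos (by omega)] at hxy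
    exact (h.chain y x (by omega) hx).1
  · rw [abs_of_nonpos (by omega), abs_of_nonneg (by omega)] at hxy
    have := (h.chain (N - y) x (by omega) hx).2.2.1
    rw [sub_sub_cancel] at this
    exact this
  · rw [abs_of_nonneg (by omega), abs_of_nonpos (by omega)] at hxy
    have := (h.chain y (N - x) (by omega) (by omega)).2.1
    rw [sub_sub_cancel] at this
    exact this
  · rw [abs_of_nonneg (by omega), abs_of_nonneg (by omega)] at hxy
    have := (h.chain (N - y) (N - x) (by omega) (by omega)).2.2.2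
    rw [sub_sub_cancel, sub_sub_cancel] at this
    exact this

/-- comparison of two positions whose sum is larger than `N` -/
lemma Intl.right {f : ℤ → ℤ} {N : ℤ} (h : Intl f N) (x y : ℤ) (hxy : x ≤ y) (hs : N < x + y) :
    f y ≤ f x := by
  rcases hxy.eq_or_lt with rfl | hlt
  · exact le_rfl
  · apply h.mono
    rw [abs_lt]
    have : 0 < 2 * y - N := by omega
    rw [abs_of_pos this]
    constructor <;> omega

lemma Intl.left {f : ℤ → ℤ} {N : ℤ} (h : Intl f N) (x y : ℤ) (hxy : x ≤ y) (hs : x + y < N) :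
    f x ≤ f y := by
  rcases hxy.eq_or_lt with rfl | hlt
  · exact le_rfl
  · apply h.mono
    rw [abs_lt]
    have : 2 * x - N < 0 := by omega
    rw [abs_of_neg this]
    constructor <;> omega

lemma Intl.X_mul {f : ℤ[X]} {N : ℤ} (h : Intl (cz f) N) : Intl (cz (X * f)) (N + 2) := by
  refine ⟨?_, ?_⟩
  · intro t ht
    have := h.1 (t - 1) (by omega)
    rw [cz_X_mul, cz_X_mul, cz_X_mul, cz_X_mul]
    have e1 : t + 1 - 1 = t - 1 + 1 := by ring
    have e2 : N + 2 - 1 - t - 1 = N - 1 - (t - 1) := by ring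
    have e3 : N + 2 - t - 1 = N - (t - 1) := by ring
    rw [e1, e2, e3]
    exact this
  · rcases h.2 with h | h
    · left
      intro x hx
      rw [cz_X_mul, cz_X_mul]
      have := h (x - 1) (by omega)
      have e3 : N + 2 - x - 1 = N - (x - 1) := by ring
      rw [e3]
      exact this
    · right
      intro x hx
      rw [cz_X_mul, cz_X_mul]
      have := h (x - 1) (by omega)
      have e3 : N + 2 - x - 1 = N - (x - 1) := by ring
      rw [e3]
      exact this

lemma Intl.zero (N : ℤ) : Intl (cz 0) N := by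
  refine ⟨?_, Or.inl ?_⟩
  · intro t _; simp [cz_zero]
  · intro t _; simp [cz_zero]

lemma Intl.one : Intl (cz 1) 0 := by
  refine ⟨?_, Or.inl ?_⟩
  · intro t ht
    simp only [cz_one]
    refine ⟨?_, ?_, ?_, ?_⟩ <;> split_ifs <;> omega
  · intro t ht
    simp only [cz_one]
    split_ifs <;> omega

/-! ## the entries of words -/

/-- `v₀ = (q, 1)` times the word, component `j` -/
noncomputable def v0 (w : List Bool) (j : Fin 2) : ℤ[X] := X * mw w 0 j + mw w 1 j

/-- the rank polynomial of the fence -/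
noncomputable def rk (w : List Bool) : ℤ[X] := v0 w 0 + v0 w 1

lemma mw_cons_true_0 (w : List Bool) (j : Fin 2) : mw (true :: w) 0 j = v0 w j := by
  simp [mw, tm, Matrix.mul_apply, Fin.sum_univ_two, Rq, v0]

lemma mw_cons_true_1 (w : List Bool) (j : Fin 2) : mw (true :: w) 1 j = mw w 1 j := by
  simp [mw, tm, Matrix.mul_apply, Fin.sum_univ_two, Rq]

lemma mw_cons_false_0 (w : List Bool) (j : Fin 2) : mw (false :: w) 0 j = X * mw w 0 j := by
  simp [mw, tm, Matrix.mul_apply, Fin.sum_univ_two, Lq]

lemma mw_cons_false_1 (w : List Bool) (j : Fin 2) : mw (false :: w) 1 j = v0 w j := by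
  simp [mw, tm, Matrix.mul_apply, Fin.sum_univ_two, Lq, v0]

lemma mw_single (t : Bool) : mw [t] = tm t := by simp [mw]

lemma mw_snoc_true_0 (w : List Bool) (i : Fin 2) : mw (w ++ [true]) i 0 = X * mw w i 0 := by
  rw [mw_append, mw_single]
  simp [tm, Matrix.mul_apply, Fin.sum_univ_two, Rq, mul_comm]

lemma mw_snoc_true_1 (w : List Bool) (i : Fin 2) :
    mw (w ++ [true]) i 1 = mw w i 0 + mw w i 1 := by
  rw [mw_append, mw_single]
  simp [tm, Matrix.mul_apply, Fin.sum_univ_two, Rq]

lemma mw_snoc_false_0 (w : List Bool) (i : Fin 2) :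
    mw (w ++ [false]) i 0 = X * (mw w i 0 + mw w i 1) := by
  rw [mw_append, mw_single]
  simp [tm, Matrix.mul_apply, Fin.sum_univ_two, Lq]; ring

lemma mw_snoc_false_1 (w : List Bool) (i : Fin 2) : mw (w ++ [false]) i 1 = mw w i 1 := by
  rw [mw_append, mw_single]
  simp [tm, Matrix.mul_apply, Fin.sum_univ_two, Lq]

lemma v0_snoc_true_0 (w : List Bool) : v0 (w ++ [true]) 0 = X * v0 w 0 := by
  unfold v0; rw [mw_snoc_true_0, mw_snoc_true_0]; ring

lemma v0_snoc_true_1 (w : List Bool) : v0 (w ++ [true]) 1 = rk w := by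
  unfold rk v0; rw [mw_snoc_true_1, mw_snoc_true_1]; ring

lemma v0_snoc_false_0 (w : List Bool) : v0 (w ++ [false]) 0 = X * rk w := by
  unfold rk v0; rw [mw_snoc_false_0, mw_snoc_false_0]; ring

lemma v0_snoc_false_1 (w : List Bool) : v0 (w ++ [false]) 1 = v0 w 1 := by
  unfold v0; rw [mw_snoc_false_1, mw_snoc_false_1]

lemma trace_S0 (w : List Bool) : (mw (w ++ [true])).trace + X * mw w 0 1 = rk w := by
  rw [Matrix.trace_fin_two, mw_snoc_true_0, mw_snoc_true_1]
  unfold rk v0; ring

lemma trace_S1 (w : List Bool) :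
    (mw (w ++ [true] ++ [false])).trace = rk w + X * (X * mw w 0 0) := by
  rw [Matrix.trace_fin_two, mw_snoc_false_0, mw_snoc_false_1, mw_snoc_true_0, mw_snoc_true_1,
    mw_snoc_true_1]
  unfold rk v0; ring

lemma trace_S2 (w : List Bool) :
    (mw (w ++ [false] ++ [true])).trace = X * rk w + mw w 1 1 := by
  rw [Matrix.trace_fin_two, mw_snoc_true_0, mw_snoc_true_1, mw_snoc_false_0, mw_snoc_false_0,
    mw_snoc_false_1]
  unfold rk v0; ring

/-- the induction statement -/
def PP (w : List Bool) : Prop :=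
  Intl (cz (rk w)) (w.length + 1) ∧
  (∃ N : ℤ, N ≤ w.length ∧ Intl (cz (v0 w 1)) N) ∧
  (∃ N : ℤ, (w.length : ℤ) + 2 ≤ N ∧ Intl (cz (v0 w 0)) N) ∧
  (∃ N : ℤ, N ≤ w.length ∧ Intl (cz (mw w 1 1)) N) ∧
  (∃ N : ℤ, (w.length : ℤ) ≤ N ∧ Intl (cz (mw w 0 0)) N) ∧
  (∃ N : ℤ, Intl (cz (mw w 0 1)) N)

/-- the step for the rank polynomial -/
lemma rk_step (w : List Bool) (h11 : ∃ N : ℤ, N ≤ w.length ∧ Intl (cz (mw w 1 1)) N)
    (h00 : ∃ N : ℤ, (w.length : ℤ) ≤ N ∧ Intl (cz (mw w 0 0)) N)
    (h01 : ∃ N : ℤ, Intl (cz (mw w 0 1)) N) : Intl (cz (rk w)) (w.length + 1) := by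
  obtain ⟨N1, hN1, I1⟩ := h11
  obtain ⟨N2, hN2, I2⟩ := h00
  obtain ⟨N3, I3⟩ := h01
  set l : ℤ := (w.length : ℤ) with hl
  set r := cz (rk w) with hr
  -- the relations
  have S0 : ∀ i, r i - cz (X * mw w 0 1) i = r (l + 1 - i) - cz (X * mw w 0 1) (l + 1 - i) := by
    intro i
    have h := trace_refl (w ++ [true]) i
    have e : ((w ++ [true]).length : ℤ) = l + 1 := by simp [hl]
    rw [e] at h
    have h1 : ∀ i, r i = cz (mw (w ++ [true])).trace i + cz (X * mw w 0 1) i := by
      intro i; rw [hr, ← trace_S0, cz_add]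
    rw [h1 i, h1 (l + 1 - i), h]; ring
  have S1 : ∀ i, r i + cz (X * (X * mw w 0 0)) i =
      r (l + 2 - i) + cz (X * (X * mw w 0 0)) (l + 2 - i) := by
    intro i
    have h := trace_refl (w ++ [true] ++ [false]) i
    have e : ((w ++ [true] ++ [false]).length : ℤ) = l + 2 := by simp [hl]
    rw [e, trace_S1, cz_add, cz_add] at h
    exact h
  have S2 : ∀ i, r (i - 1) + cz (mw w 1 1) i =
      r (l + 2 - i - 1) + cz (mw w 1 1) (l + 2 - i) := by
    intro i
    have h := trace_refl (w ++ [false] ++ [true]) i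
    have e : ((w ++ [false] ++ [true]).length : ℤ) = l + 2 := by simp [hl]
    rw [e, trace_S2, cz_add, cz_add, cz_X_mul, cz_X_mul] at h
    exact h
  -- (a)
  have ha : ∀ j, 2 * j ≤ l → r j ≤ r (l - j) := by
    intro j hj
    have h := S2 (j + 1)
    have e1 : j + 1 - 1 = j := by ring
    have e2 : l + 2 - (j + 1) - 1 = l - j := by ring
    rw [e1, e2] at h
    have h2 := I1.right (j + 1) (l + 2 - (j + 1)) (by omega) (by omega)
    omega
  -- (b)
  have hb : ∀ j, 2 * j ≤ l + 2 → r (l + 2 - j) ≤ r j := by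
    intro j hj
    have h := S1 j
    have I2' := I2.X_mul.X_mul
    have h2 := I2'.left j (l + 2 - j) (by omega) (by omega)
    omega
  -- (i)
  have hi : (∀ x, 2 * x < l + 1 → r (l + 1 - x) ≤ r x) ∨
      (∀ x, 2 * x < l + 1 → r x ≤ r (l + 1 - x)) := by
    have I3' := I3.X_mul
    rcases lt_trichotomy (N3 + 2) (l + 1) with h | h | h
    · left
      intro x hx
      have h0 := S0 x
      have h1 := I3'.right x (l + 1 - x) (by omega) (by omega)
      omega
    · rcases I3'.2 with h' | h'
      · left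
        intro x hx
        have h0 := S0 x
        have h1 := h' x (by omega)
        rw [h] at h1
        omega
      · right
        intro x hx
        have h0 := S0 x
        have h1 := h' x (by omega)
        rw [h] at h1
        omega
    · right
      intro x hx
      have h0 := S0 x
      have h1 := I3'.left x (l + 1 - x) (by omega) (by omega)
      omega
  refine ⟨?_, hi⟩
  intro t ht
  have a1 := ha t (by omega)
  have e1 : l + 1 - 1 - t = l - t := by ring
  rw [e1]
  have b1 := hb (t + 1) (by omega)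
  have e2 : l + 2 - (t + 1) = l + 1 - t := by ring
  rw [e2] at b1
  rcases hi with h | h
  · have c1 := h t (by omega)
    have c2 : r (l - t) ≤ r (t + 1) := by
      rcases (show 2 * (t + 1) ≤ l + 1 by omega).lt_or_eq with h' | h'
      · have := h (t + 1) h'
        have e3 : l + 1 - (t + 1) = l - t := by ring
        rw [e3] at this
        exact this
      · have e3 : l - t = t + 1 := by omega
        rw [e3]
    exact ⟨a1.trans c2, a1, b1, c1.trans a1⟩
  · have c1 := h t (by omega)
    have c2 : r (t + 1) ≤ r (l - t) := by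
      rcases (show 2 * (t + 1) ≤ l + 1 by omega).lt_or_eq with h' | h'
      · have := h (t + 1) h'
        have e3 : l + 1 - (t + 1) = l - t := by ring
        rw [e3] at this
        exact this
      · have e3 : l - t = t + 1 := by omega
        rw [e3]
    exact ⟨c1.trans b1, a1, b1, b1.trans c2⟩

theorem PP_all (n : ℕ) : ∀ w : List Bool, w.length = n → PP w := by
  induction n with
  | zero =>
    intro w hw
    have : w = [] := List.length_eq_zero_iff.1 hw
    subst this
    have h11 : ∃ N : ℤ, N ≤ (([] : List Bool).length : ℤ) ∧ Intl (cz (mw [] 1 1)) N :=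
      ⟨0, by simp, by simpa [mw] using Intl.one⟩
    have h00 : ∃ N : ℤ, (([] : List Bool).length : ℤ) ≤ N ∧ Intl (cz (mw [] 0 0)) N :=
      ⟨0, by simp, by simpa [mw] using Intl.one⟩
    have h01 : ∃ N : ℤ, Intl (cz (mw [] 0 1)) N := ⟨0, by simpa [mw] using Intl.zero 0⟩
    refine ⟨rk_step _ h11 h00 h01, ⟨0, by simp, ?_⟩, ⟨2, by simp, ?_⟩, h11, h00, h01⟩
    · have : v0 [] 1 = 1 := by simp [v0, mw]
      rw [this]; exact Intl.one
    · have : v0 [] 0 = X * 1 := by simp [v0, mw]
      rw [this]; exact Intl.one.X_mul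
  | succ n ih =>
    intro w hw
    -- last letter
    obtain ⟨u, s, hus⟩ : ∃ u s, w = u ++ [s] := by
      rcases List.eq_nil_or_concat w with h | ⟨u, s, h⟩
      · subst h; simp at hw
      · exact ⟨u, s, by simpa using h⟩
    have hul : u.length = n := by rw [hus] at hw; simpa using hw
    obtain ⟨u1, ⟨N2, u2, u2'⟩, ⟨N3, u3, u3'⟩, -, -, -⟩ := ih u hul
    have g2 : ∃ N : ℤ, N ≤ w.length ∧ Intl (cz (v0 w 1)) N := by
      rw [hw, hus]
      cases s
      · rw [v0_snoc_false_1]; exact ⟨N2, by push_cast; omega, u2'⟩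
      · rw [v0_snoc_true_1]; exact ⟨_, by push_cast; omega, u1⟩
    have g3 : ∃ N : ℤ, (w.length : ℤ) + 2 ≤ N ∧ Intl (cz (v0 w 0)) N := by
      rw [hw, hus]
      cases s
      · rw [v0_snoc_false_0]; exact ⟨_, by push_cast; omega, u1.X_mul⟩
      · rw [v0_snoc_true_0]; exact ⟨_, by push_cast; omega, u3'.X_mul⟩
    -- first letter
    obtain ⟨t, x, htx⟩ : ∃ t x, w = t :: x := by
      cases w with
      | nil => simp at hw
      | cons t x => exact ⟨t, x, rfl⟩
    have hxl : x.length = n := by rw [htx] at hw; simpa using hw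
    obtain ⟨-, ⟨M2, x2, x2'⟩, ⟨M3, x3, x3'⟩, ⟨M4, x4, x4'⟩, ⟨M5, x5, x5'⟩, ⟨M6, x6⟩⟩ := ih x hxl
    have g4 : ∃ N : ℤ, N ≤ w.length ∧ Intl (cz (mw w 1 1)) N := by
      rw [hw, htx]
      cases t
      · rw [mw_cons_false_1]; exact ⟨M2, by push_cast; omega, x2'⟩
      · rw [mw_cons_true_1]; exact ⟨M4, by push_cast; omega, x4'⟩
    have g5 : ∃ N : ℤ, (w.length : ℤ) ≤ N ∧ Intl (cz (mw w 0 0)) N := by
      rw [hw, htx]
      cases t
      · rw [mw_cons_false_0]; exact ⟨_, by push_cast; omega, x5'.X_mul⟩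
      · rw [mw_cons_true_0]; exact ⟨M3, by push_cast; omega, x3'⟩
    have g6 : ∃ N : ℤ, Intl (cz (mw w 0 1)) N := by
      rw [htx]
      cases t
      · rw [mw_cons_false_0]; exact ⟨_, x6.X_mul⟩
      · rw [mw_cons_true_0]; exact ⟨_, x2'⟩
    exact ⟨rk_step w g4 g5 g6, g2, g3, g4, g5, g6⟩

/-- an interlacing polynomial is unimodal -/
lemma unimodal_of_intl {f : ℤ[X]} {N : ℤ} (h : Intl (cz f) N) : Unimodal f := by
  have up : ∀ i : ℕ, 2 * ((i : ℤ) + 1) ≤ N → f.coeff i ≤ f.coeff (i + 1) := by
    intro i hi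
    have := (h.1 i (by omega)).1
    have e : ((i : ℤ) + 1) = ((i + 1 : ℕ) : ℤ) := by push_cast; ring
    rw [e, cz_natCast, cz_natCast] at this
    exact this
  have down : ∀ i : ℕ, N ≤ 2 * (i : ℤ) → f.coeff (i + 1) ≤ f.coeff i := by
    intro i hi
    have := h.right i (i + 1) (by omega) (by omega)
    have e : ((i : ℤ) + 1) = ((i + 1 : ℕ) : ℤ) := by push_cast; ring
    rw [e, cz_natCast, cz_natCast] at this
    exact this
  -- the mode
  obtain ⟨j, hj1, hj2⟩ : ∃ j : ℕ, (∀ i < j, f.coeff i ≤ f.coeff (i + 1)) ∧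
      ∀ i, j ≤ i → f.coeff (i + 1) ≤ f.coeff i := by
    rcases le_or_gt N 0 with h0 | h0
    · exact ⟨0, fun i hi => absurd hi (Nat.not_lt_zero i), fun i _ => down i (by omega)⟩
    · rcases Int.even_or_odd' N with ⟨k, hk | hk⟩
      · refine ⟨k.toNat, fun i hi => up i (by omega), fun i hi => down i (by omega)⟩
      · rcases le_total (f.coeff k.toNat) (f.coeff (k.toNat + 1)) with hc | hc
        · refine ⟨k.toNat + 1, fun i hi => ?_, fun i hi => down i (by omega)⟩
          rcases (Nat.lt_succ_iff.1 hi).lt_or_eq with h' | h'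
          · exact up i (by omega)
          · rw [h']; exact hc
        · refine ⟨k.toNat, fun i hi => up i (by omega), fun i hi => ?_⟩
          rcases hi.lt_or_eq with h' | h'
          · exact down i (by omega)
          · rw [← h']; exact hc
  refine ⟨min j f.natDegree, min_le_right _ _, fun i hi => hj1 i (lt_of_lt_of_le hi (min_le_left _ _)),
    fun i hi1 hi2 => ?_⟩
  rcases min_le_iff.1 hi1 with h' | h'
  · exact hj2 i h'
  · omega

/-- the lower right entries of all words are unimodal -/
theorem word_unimodal (w : List Bool) : Unimodal (mw w 1 1) := by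
  obtain ⟨-, -, -, ⟨N, -, h⟩, -, -⟩ := PP_all w.length w rfl
  exact unimodal_of_intl h

/-! ## The polynomials of the problem as entries of words -/

/-- the word of a list of exponents -/
def wd : Bool → List ℕ → List Bool
  | _, [] => []
  | b, a :: l => List.replicate a b ++ wd (!b) l

lemma mw_replicate (b : Bool) (a : ℕ) : mw (List.replicate a b) = (tm b) ^ a := by
  induction a with
  | zero => simp [mw]
  | succ a ih => rw [List.replicate_succ, mw, ih, pow_succ']

lemma prodRL_eq (b : Bool) (l : List ℕ) : prodRL b l = mw (wd b l) := by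
  induction l generalizing b with
  | nil => rfl
  | cons a l ih => rw [prodRL, wd, mw_append, mw_replicate, ih]; rfl

lemma num_eq (l : List ℕ) : num l = mw (wd true l) 0 1 := by
  unfold num; rw [prodRL_eq]; simp [Matrix.mulVec, dotProduct, Fin.sum_univ_two]

lemma den_eq (l : List ℕ) : den l = mw (wd true l) 1 1 := by
  unfold den; rw [prodRL_eq]; simp [Matrix.mulVec, dotProduct, Fin.sum_univ_two]

lemma wd_length (b : Bool) (l : List ℕ) : (wd b l).length = l.sum := by
  induction l generalizing b with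
  | nil => rfl
  | cons a l ih => rw [wd, List.length_append, List.length_replicate, ih, List.sum_cons]

lemma replicate_snoc (a : ℕ) (b : Bool) : List.replicate (a + 1) b = List.replicate a b ++ [b] := by
  rw [List.replicate_succ']

lemma wd_last (l : List ℕ) (h : ∀ a ∈ l, 1 ≤ a) (b : Bool) :
    (l.length % 2 = 1 → ∃ u, wd b l = u ++ [b]) ∧
    (l ≠ [] → l.length % 2 = 0 → ∃ u, wd b l = u ++ [!b]) := by
  induction l generalizing b with
  | nil => simp
  | cons a l ih =>
    obtain ⟨i1, i2⟩ := ih (fun x hx => h x (List.mem_cons_of_mem _ hx)) (!b)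
    have ha := h a List.mem_cons_self
    constructor
    · intro hl
      by_cases hnil : l = []
      · subst hnil
        obtain ⟨a', rfl⟩ : ∃ a', a = a' + 1 := ⟨a - 1, by omega⟩
        refine ⟨List.replicate a' b, ?_⟩
        rw [wd, wd, List.append_nil, replicate_snoc]
      · rw [List.length_cons] at hl
        obtain ⟨u, hu⟩ := i2 hnil (by omega)
        rw [Bool.not_not] at hu
        exact ⟨List.replicate a b ++ u, by rw [wd, hu, List.append_assoc]⟩
    · intro _ hl
      rw [List.length_cons] at hl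
      obtain ⟨u, hu⟩ := i1 (by omega)
      exact ⟨List.replicate a b ++ u, by rw [wd, hu, List.append_assoc]⟩

/-- the word of a rational number `> 1` begins and ends with `R` and has at least two letters -/
lemma wd_shape {m n : ℕ} (hn : 1 ≤ n) (hnm : n < m) {l : List ℕ} (hl : IsOddCF m n l) :
    ∃ x, wd true l = true :: (x ++ [true]) := by
  obtain ⟨h1, h2, h3⟩ := hl
  obtain ⟨u, hu⟩ := (wd_last l h1 true).1 h2
  cases u with
  | cons t x =>
    refine ⟨x, ?_⟩
    rw [hu]
    cases l with
    | nil => simp at h2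
    | cons a l =>
      have ha := h1 a List.mem_cons_self
      obtain ⟨a', rfl⟩ : ∃ a', a = a' + 1 := ⟨a - 1, by omega⟩
      rw [wd, List.replicate_succ, List.cons_append, List.cons_append] at hu
      have := (List.cons.inj hu).1
      rw [← this]
      rfl
  | nil =>
    exfalso
    have hlen : l.sum = 1 := by rw [← wd_length true l, hu]; rfl
    cases l with
    | nil => simp at h2
    | cons a l =>
      have ha := h1 a List.mem_cons_self
      cases l with
      | nil =>
        rw [List.sum_cons, List.sum_nil] at hlen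
        have : a = 1 := by omega
        subst this
        simp only [cfValue] at h3
        have hnq : (n : ℚ) ≠ 0 := by positivity
        rw [eq_div_iff hnq] at h3
        norm_num at h3
        have : n = m := by exact_mod_cast h3
        omega
      | cons a' l =>
        have ha' := h1 a' (List.mem_cons_of_mem _ List.mem_cons_self)
        rw [List.sum_cons, List.sum_cons] at hlen
        omega

/-- degrees -/
lemma deg_word (u : List Bool) : (mw (u ++ [true]) 0 1).Monic ∧
    (mw (u ++ [true]) 0 1).natDegree = u.length ∧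
    (mw (u ++ [true]) 1 1).natDegree ≤ u.length := by
  induction u with
  | nil =>
    rw [List.nil_append, mw_cons_true_0, mw_cons_true_1]
    simp [v0, mw]
  | cons t u ih =>
    obtain ⟨i1, i2, i3⟩ := ih
    set f := mw (u ++ [true]) 0 1 with hf
    set g := mw (u ++ [true]) 1 1 with hg
    have hXf : (X * f).Monic := monic_X.mul i1
    have hdX : (X * f).natDegree = u.length + 1 := by
      rw [Polynomial.natDegree_mul X_ne_zero i1.ne_zero, natDegree_X, i2, add_comm]
    have hdeg : g.degree < (X * f).degree := by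
      rw [Polynomial.degree_eq_natDegree hXf.ne_zero, hdX]
      refine lt_of_le_of_lt Polynomial.degree_le_natDegree ?_
      exact_mod_cast (Nat.lt_succ_of_le i3)
    have hv : v0 (u ++ [true]) 1 = X * f + g := rfl
    have hm : (v0 (u ++ [true]) 1).Monic := by rw [hv]; exact hXf.add_of_left hdeg
    have hd : (v0 (u ++ [true]) 1).natDegree = u.length + 1 := by
      rw [hv, natDegree_add_eq_left_of_degree_lt hdeg, hdX]
    rw [List.cons_append, List.length_cons]
    cases t
    · rw [mw_cons_false_0, mw_cons_false_1]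
      exact ⟨hXf, hdX, hd.le⟩
    · rw [mw_cons_true_0, mw_cons_true_1]
      exact ⟨hm, hd, i3.trans (Nat.le_succ _)⟩

lemma reflect_of_refl {n : ℕ} {f g : ℤ[X]} (h : Refl n f g) : f.reflect n = g := by
  ext i
  rw [coeff_reflect]
  rcases le_or_gt i n with hi | hi
  · rw [revAt_le hi]
    have h1 := h.symm i
    rw [cz_natCast] at h1
    have e : (n : ℤ) - i = ((n - i : ℕ) : ℤ) := by omega
    rw [e, cz_natCast] at h1
    exact h1.symm
  · rw [revAt_eq_self_of_lt hi]
    have h1 := h.symm i
    have h2 := h i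
    rw [cz_natCast] at h1 h2
    rw [h1, h2]
    unfold cz
    rw [if_neg (by omega), if_neg (by omega)]

lemma inv_word (u : List Bool) :
    (mw (u ++ [true]) 1 1).reflect u.length = mw (sw u ++ [true]) 0 1 ∧
    (mw (u ++ [true]) 0 1).reflect u.length = mw (sw u ++ [true]) 1 1 := by
  obtain ⟨h1, h2, h3, h4⟩ := mw_refl u
  constructor
  · rw [mw_snoc_true_1, mw_snoc_true_1]
    exact reflect_of_refl (h3.add' h4)
  · rw [mw_snoc_true_1, mw_snoc_true_1]
    exact reflect_of_refl (h1.add' h2)

/-- reversed and swapped word -/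
def dag (w : List Bool) : List Bool := (sw w).reverse

/-- `diag(q, 1)` -/
noncomputable def Dl : Matrix (Fin 2) (Fin 2) ℤ[X] := !![X, 0; 0, 1]

lemma Dl_tm (t : Bool) : Dl * tm (!t) = (tm t).transpose * Dl := by
  cases t <;> refine Matrix.ext fun i j => ?_ <;> fin_cases i <;> fin_cases j <;>
    simp [Dl, tm, Rq, Lq, Matrix.mul_apply, Fin.sum_univ_two]

lemma Dl_dag (w : List Bool) : Dl * mw (dag w) = (mw w).transpose * Dl := by
  induction w with
  | nil => simp [dag, sw, mw]
  | cons t w ih =>
    have e : dag (t :: w) = dag w ++ [!t] := by simp [dag, sw]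
    rw [e, mw_append, mw_single, ← Matrix.mul_assoc, ih, Matrix.mul_assoc, Dl_tm, mw,
      Matrix.transpose_mul, Matrix.mul_assoc]

lemma dag_entries (w : List Bool) : mw (dag w) 1 0 = X * mw w 0 1 ∧ mw (dag w) 1 1 = mw w 1 1 := by
  have h := Dl_dag w
  have h0 := congrFun (congrFun h 1) 0
  have h1 := congrFun (congrFun h 1) 1
  simp [Dl, Matrix.mul_apply, Fin.sum_univ_two] at h0 h1
  exact ⟨by rw [h0, mul_comm], h1⟩

/-- a bilinear form as an entry of a word -/
lemma form_word (w y : List Bool) :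
    mw (dag w ++ y) 1 1 = X * mw w 0 1 * mw y 0 1 + mw w 1 1 * mw y 1 1 := by
  rw [mw_append, Matrix.mul_apply, Fin.sum_univ_two, (dag_entries w).1, (dag_entries w).2]

/-- existence of the odd expansion -/
lemma exists_cf (N : ℕ) : ∀ m n : ℕ, n ≤ N → 1 ≤ n → n < m → ∀ p : ℕ, p < 2 →
    ∃ l : List ℕ, (∀ a ∈ l, 1 ≤ a) ∧ l.length % 2 = p ∧ cfValue l = (m : ℚ) / n := by
  induction N with
  | zero => intro m n h1 h2; omega
  | succ N ih =>
    intro m n hnN hn hnm p hp
    have hnq : (n : ℚ) ≠ 0 := by positivity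
    have hdm := Nat.div_add_mod m n
    rcases Nat.eq_zero_or_pos (m % n) with hr | hr
    · rw [hr, add_zero] at hdm
      have hq : 2 ≤ m / n := by
        by_contra hlt
        have h2 : m / n < 2 := not_le.1 hlt
        have h3 : m ≤ n := by
          rw [← hdm]
          calc n * (m / n) ≤ n * 1 := Nat.mul_le_mul_left _ (by exact Nat.lt_succ_iff.1 h2)
            _ = n := mul_one n
        exact absurd hnm (not_lt.2 h3)
      have hval : (m : ℚ) / n = ((m / n : ℕ) : ℚ) := by
        rw [div_eq_iff hnq]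
        have : ((n * (m / n) : ℕ) : ℚ) = m := by rw [hdm]
        rw [← this]; push_cast; ring
      obtain rfl | rfl : p = 0 ∨ p = 1 := by omega
      · refine ⟨[m / n - 1, 1], ?_, by simp, ?_⟩
        · intro a ha
          simp at ha
          rcases ha with rfl | rfl <;> omega
        · rw [hval]
          simp only [cfValue]
          have : ((m / n - 1 : ℕ) : ℚ) = ((m / n : ℕ) : ℚ) - 1 := by
            rw [Nat.cast_sub (by omega)]; simp
          rw [this]; norm_num
      · refine ⟨[m / n], ?_, by simp, ?_⟩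
        · intro a ha
          simp at ha
          omega
        · rw [hval]
          simp only [cfValue]
          norm_num
    · have hlt := Nat.mod_lt m (show 0 < n by omega)
      obtain ⟨l, l1, l2, l3⟩ := ih n (m % n) (by omega) hr hlt (1 - p) (by omega)
      have hq : 1 ≤ m / n := Nat.div_pos hnm.le (by omega)
      refine ⟨m / n :: l, ?_, ?_, ?_⟩
      · intro a ha
        rcases List.mem_cons.1 ha with rfl | ha
        · exact hq
        · exact l1 a ha
      · rw [List.length_cons]; omega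
      · rw [cfValue, l3]
        have hrq : ((m % n : ℕ) : ℚ) ≠ 0 := by positivity
        have : ((n * (m / n) + m % n : ℕ) : ℚ) = m := by rw [hdm]
        push_cast at this
        rw [one_div_div, ← this]
        field_simp

/-- For all integers `m > n ≥ 1` (in particular for all coprime ones) the rational number `m / n` has a
regular continued fraction `[a₁, …, a_k]` with an odd number of terms `a_i ≥ 1`, and for this expansion
each of the three polynomials `𝒜_{m/n}`, `ℬ_{m/n}`, `𝒞_{m/n}` has a unimodal sequence of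
coefficients. -/
theorem result (m n : ℕ) (hn : 1 ≤ n) (hnm : n < m) :
    (∃ l, IsOddCF m n l) ∧
    ∀ l, IsOddCF m n l → Unimodal (polyA l) ∧ Unimodal (polyB l) ∧ Unimodal (polyC l) := by
  refine ⟨?_, ?_⟩
  · obtain ⟨l, h1, h2, h3⟩ := exists_cf n m n le_rfl hn hnm 1 (by norm_num)
    exact ⟨l, h1, h2, h3⟩
  · intro l hl
    obtain ⟨x, hx⟩ := wd_shape hn hnm hl
    have hw : wd true l = (true :: x) ++ [true] := hx
    obtain ⟨d1, d2, d3⟩ := deg_word (true :: x)
    obtain ⟨r1, r2⟩ := inv_word (true :: x)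
    have hN : num l = mw ((true :: x) ++ [true]) 0 1 := by rw [num_eq, hw]
    have hD : den l = mw ((true :: x) ++ [true]) 1 1 := by rw [den_eq, hw]
    have hdd : dd l = (true :: x).length := by
      unfold dd; rw [hN, hD, d2, max_eq_left d3]
    have hNi : numInv l = mw (sw (true :: x) ++ [true]) 0 1 := by
      unfold numInv; rw [hdd, hD, r1]
    have hDi : denInv l = mw (sw (true :: x) ++ [true]) 1 1 := by
      unfold denInv; rw [hdd, hN, r2]
    have hC : polyC l = mw (dag (wd true l) ++ wd true l) 1 1 := by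
      rw [form_word]; unfold polyC; rw [num_eq, den_eq]; ring
    have hA : polyA l = mw (dag (wd true l) ++ (sw (true :: x) ++ [true])) 1 1 := by
      rw [form_word]; unfold polyA; rw [hNi, hDi, num_eq, den_eq]
    have hB : polyB l = mw (dag (x ++ [true]) ++ (true :: (sw x ++ [true]))) 1 1 := by
      rw [form_word]
      unfold polyB
      rw [hNi, hDi, hN, hD]
      have e : sw (true :: x) ++ [true] = false :: (sw x ++ [true]) := rfl
      rw [e, List.cons_append, mw_cons_true_0, mw_cons_true_1, mw_cons_false_0, mw_cons_false_1,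
        mw_cons_true_0, mw_cons_true_1]
      unfold v0
      ring
    rw [hA, hB, hC]
    exact ⟨word_unimodal _, word_unimodal _, word_unimodal _⟩

end Pool.Agent.Results.MP_2c5354_co.Unimodality
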